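import Pool.Agent.T6.H79.TS.F

/-!
# The entropies of matrix shifts are entropies of tree-shifts of finite type, for every arity

Let `A` be a `0`-`1` matrix such that the matrix shift `X_A` is not empty. Its topological entropy is
`ln ρ(A)`, `ρ(A)` the spectral radius. We show that there is a tree-shift of finite type `X`, whose entropy
`h(X) = lim (ln ln |B_n(X)|) / n` exists and is equal to `ln ρ(A)` (Question 1). More precisely, for a fixed
arity `d ≥ 2` there is one on the `d`-ary tree if and only if `ρ(A) ≤ d`, and the forbidden blocks can be
taken to be `2`-blocks. The same is true for all matrices with nonnegative integer entries.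

The tree-shift: let `v` be a vector of positive integers with `A v ≤ d v`. There are `v_i` copies of every
state `i`. The `∑_j A_ij v_j ≤ d v_i` pairs (an edge `i → j`, a copy of `j`) are distributed to the children
of the `v_i` copies of `i`, at most one for each child; the other children are dead, as are all nodes below
them. So the label of a live node determines the states of its children, and the live nodes have a free
colour. There are about `ρ(A) ^ n` live nodes of length less than `n`.
-/

set_option autoImplicit false

namespace Pool.Agent.Results.MP_29bdbb_an.EveryArity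

open Pool.Agent.T6.H79.TS

/-- Let `M` be a matrix with nonnegative integer entries, indexed by a finite set, such that the matrix
shift `X_M` is not empty, and `ρ(M)` its spectral radius.
1. For some `d ≥ 2` there is a nonempty tree-shift of finite type on the `d`-ary tree, given by finitely
many forbidden `2`-blocks, whose entropy exists and is equal to `ln ρ(M)`.
2. More precisely this is true for every `d ≥ 2` with `ρ(M) ≤ d`.
3. If `d ≥ 2` and a tree-shift of finite type on the `d`-ary tree (over any finite alphabet) has the entropy
`ln ρ(M)`, then `ρ(M) ≤ d`. -/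
theorem result (S : Type) [Fintype S] [DecidableEq S] (M : Matrix S S ℕ)
    (h : (matrixShift M).Nonempty) :
    (∃ d : ℕ, 2 ≤ d ∧ ∃ (A : Type) (_ : Fintype A) (F : Set (Σ n : ℕ, Block d A n)), F.Finite ∧
      (∀ b ∈ F, b.1 = 2) ∧ (shift F).Nonempty ∧ HasEntropy (shift F) (Real.log (rho M))) ∧
    (∀ d : ℕ, 2 ≤ d → rho M ≤ d → ∃ (A : Type) (_ : Fintype A) (F : Set (Σ n : ℕ, Block d A n)),
      F.Finite ∧ (∀ b ∈ F, b.1 = 2) ∧ (shift F).Nonempty ∧
        HasEntropy (shift F) (Real.log (rho M))) ∧
    ∀ d : ℕ, 2 ≤ d → ∀ (A : Type) [Fintype A] (X : Set (Tree d A)), IsTSFT X →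
      HasEntropy X (Real.log (rho M)) → rho M ≤ d := by
  refine ⟨?_, fun d _ hd => realize M h d hd, fun d hd A _ X _ hX => arity_le M h d hd A X hX⟩
  obtain ⟨d, h1, h2⟩ := exists_arity M
  exact ⟨d, h1, realize M h d h2⟩

end Pool.Agent.Results.MP_29bdbb_an.EveryArity
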